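import Pool.Agent.Results.MP_69e6d0_co.CutReuleaux
import Pool.Agent.Y379.RZ.Max
import Pool.Agent.Y379.RZ.Poly

set_option autoImplicit false

/-!
# The rendezvous constants of continua: an interval, a maximum, and many sets beyond Reuleaux triangles

The starting file `CutReuleaux` gives one planar continuum whose rendezvous constant is larger than the
one of every Reuleaux triangle (and of its boundary curve), so that `R_2 > r(T)`. Here:

* in every dimension `d ≥ 1` the rendezvous constants of continua with more than one point fill an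
  interval `[1/2, R_d]`; the supremum `R_d` is a maximum, and it is also the supremum over connected
  finite unions of segments;
* the rendezvous number is Lipschitz continuous in the Hausdorff distance, and `r(E) > c` is an open
  condition;
* in the plane the constant `ρ` of the Reuleaux triangles and the constant `ρ'` of their boundary curves
  are smaller than `R_2`; all the numbers of `(max(ρ, ρ'), R_2]` are rendezvous constants of continua, the
  continua which beat all Reuleaux triangles form a nonempty open set, and some of them are finite unions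
  of segments.
-/

namespace Pool.Agent.Results.MP_69e6d0_co.RendezvousSpectrum

open Set Metric

/-- The rendezvous number `a(E)`: the supremum over `n ≥ 1` and points `x_1, …, x_n ∈ E`
(not necessarily distinct) of `min_{y ∈ E} (1/n) ∑ i, |x_i - y|`. -/
noncomputable def rendezvous {X : Type*} [PseudoMetricSpace X] (E : Set X) : ℝ :=
  sSup {r : ℝ | ∃ (n : ℕ) (x : Fin n → X), 1 ≤ n ∧ (∀ i, x i ∈ E) ∧
    IsLeast {s : ℝ | ∃ y ∈ E, s = (1 / (n : ℝ)) * ∑ i, dist (x i) y} r}

/-- The rendezvous constant `r(E) = a(E) / diam(E)`. -/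
noncomputable def rendezvousConstant {X : Type*} [PseudoMetricSpace X] (E : Set X) : ℝ :=
  rendezvous E / Metric.diam E

/-- `d`-dimensional Euclidean space -/
abbrev Space (d : ℕ) : Type := EuclideanSpace ℝ (Fin d)

/-- The Reuleaux triangle with vertices `v 0, v 1, v 2` and width `s`: the intersection of the three
closed discs of radius `s` centred at the vertices. -/
def reuleaux (s : ℝ) (v : Fin 3 → Space 2) : Set (Space 2) := ⋂ i, Metric.closedBall (v i) s

/-- `v 0, v 1, v 2` are the vertices of an equilateral triangle of side `s > 0`. -/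
def Equilateral (s : ℝ) (v : Fin 3 → Space 2) : Prop := 0 < s ∧ ∀ i j, i ≠ j → dist (v i) (v j) = s

/-- compact connected sets with more than one point -/
def IsContinuum {d : ℕ} (E : Set (Space d)) : Prop := IsCompact E ∧ IsConnected E ∧ E.Nontrivial

/-- the set of the rendezvous constants of the continua of dimension at most `d` -/
def values (d : ℕ) : Set ℝ := {r | ∃ E : Set (Space d), IsContinuum E ∧ rendezvousConstant E = r}

/-- the union of finitely many segments, given by their endpoints -/
def segments {d : ℕ} (S : Finset (Space d × Space d)) : Set (Space d) := ⋃ p ∈ S, segment ℝ p.1 p.2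

open Pool.Agent.Y379.RZ

theorem rdv_eq {X : Type*} [PseudoMetricSpace X] (E : Set X) : rendezvous E = rdv E := rfl

theorem rc_eq {X : Type*} [PseudoMetricSpace X] (E : Set X) : rendezvousConstant E = rc E := rfl

theorem line_cont {d : ℕ} (hd : 1 ≤ d) : ∃ E : Set (Space d), Cont E := by
  have : Nontrivial (Space d) := by
    haveI : Nonempty (Fin d) := ⟨⟨0, hd⟩⟩
    infer_instance
  obtain ⟨e, he⟩ := exists_ne (0 : Space d)
  exact ⟨segment ℝ 0 e, seg_compact e, ⟨⟨0, left_mem_segment ℝ _ _⟩,
    (convex_segment (𝕜 := ℝ) (0 : Space d) e).isPreconnected⟩,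
    ⟨0, left_mem_segment ℝ _ _, e, right_mem_segment ℝ _ _, he.symm⟩⟩

theorem spectrum {d : ℕ} (hd : 1 ≤ d) : ∃ R : ℝ, IsGreatest (values d) R ∧ values d = Icc (1 / 2) R ∧
    ∀ c < R, ∃ S : Finset (Space d × Space d), IsContinuum (segments S) ∧ c < rendezvousConstant (segments S) := by
  obtain ⟨F, hF, hmax⟩ := exists_max (line_cont hd)
  have hG : IsGreatest (values d) (rc F) := by
    refine ⟨⟨F, hF, rfl⟩, ?_⟩
    rintro r ⟨E, hE, rfl⟩
    exact hmax E hE
  refine ⟨rc F, hG, ?_, fun c hc => poly_above hF hc⟩
  apply Subset.antisymm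
  · rintro r ⟨E, hE, rfl⟩
    exact ⟨half_le hE.1 hE.2.2, hmax E hE⟩
  · rintro r ⟨h1, h2⟩
    obtain ⟨E, hE, hr⟩ := between hF h1 h2
    exact ⟨E, hE, hr⟩

/-- all Reuleaux triangles are similar -/
theorem reuleaux_rc {s : ℝ} {v : Fin 3 → Space 2} (h : Equilateral s v) :
    rc (reuleaux s v) = rc Helper342.Reul.TT ∧
      rc (frontier (reuleaux s v)) = rc (frontier Helper342.Reul.TT) := by
  obtain ⟨hs, hv⟩ := h
  have hv' : ∀ i j, i ≠ j → dist (s⁻¹ • v i) (s⁻¹ • v j) = 1 := by
    intro i j hij
    rw [dist_smul₀, hv i j hij, Real.norm_of_nonneg (inv_nonneg.2 hs.le), inv_mul_cancel₀ hs.ne']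
  obtain ⟨f, f0, f1, f2⟩ := Helper342.Reul.exists_iso (fun i => s⁻¹ • v i) hv'
  let g : EuclideanSpace ℝ (Fin 2) ≃ₜ EuclideanSpace ℝ (Fin 2) := Homeomorph.smulOfNeZero s hs.ne'
  have hg : ∀ x, g x = s • x := fun x => rfl
  let F : ℂ ≃ₜ EuclideanSpace ℝ (Fin 2) := f.toHomeomorph.trans g
  have hF : ∀ z, F z = s • f z := fun z => rfl
  have hFd : ∀ x y, dist (F x) (F y) = s * dist x y := by
    intro x y
    rw [hF, hF, dist_smul₀, f.dist_eq, Real.norm_of_nonneg hs.le]
  have hv0 : ∀ i, v i = s • (s⁻¹ • v i) := fun i => by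
    rw [smul_smul, mul_inv_cancel₀ hs.ne', one_smul]
  have hF0 : F 0 = v 0 := by rw [hF, f0, ← hv0]
  have hF1 : F 1 = v 1 := by rw [hF, f1, ← hv0]
  have hF2 : F Helper342.Reul.ζ = v 2 := by rw [hF, f2, ← hv0]
  have hT : reuleaux s v = F '' Helper342.Reul.TT := by
    ext x
    obtain ⟨z, rfl⟩ := F.surjective x
    rw [F.injective.mem_set_image]
    simp only [reuleaux, mem_iInter, mem_closedBall]
    rw [Fin.forall_fin_succ, Fin.forall_fin_two]
    simp only [Fin.succ_zero_eq_one, Fin.succ_one_eq_two]
    rw [← hF0, ← hF1, ← hF2, hFd, hFd, hFd, dist_zero_right, dist_eq_norm, dist_eq_norm]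
    have hle : ∀ t : ℝ, s * t ≤ s ↔ t ≤ 1 := fun t => by
      constructor
      · intro h
        exact le_of_mul_le_mul_left (by linarith) hs
      · intro h
        nlinarith
    rw [hle, hle, hle]
    rfl
  have hfr : frontier (F '' Helper342.Reul.TT) = F '' frontier Helper342.Reul.TT :=
    (F.image_frontier _).symm
  have hTc : Bornology.IsBounded Helper342.Reul.TT := Helper342.Reul.TT_compact.isBounded
  have hTf : Bornology.IsBounded (frontier Helper342.Reul.TT) :=
    hTc.subset Helper342.Reul.TT_compact.isClosed.frontier_subset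
  rw [hT, hfr]
  exact ⟨CutReuleaux.constant_dilate hs hFd hTc, CutReuleaux.constant_dilate hs hFd hTf⟩

theorem plane_cont : ∃ E : Set (Space 2), Cont E ∧ rc Helper342.Reul.TT < rc E ∧
    rc (frontier Helper342.Reul.TT) < rc E := by
  obtain ⟨E, hc, hconn, hnt, h1, h2⟩ := Helper342.RV.main_C2
  let L : ℂ ≃ₗᵢ[ℝ] EuclideanSpace ℝ (Fin 2) := Complex.orthonormalBasisOneI.repr
  have hL : ∀ x y, dist (L x) (L y) = 1 * dist x y := fun x y => by rw [L.dist_map, one_mul]
  have e : rc (L '' E) = rc E := CutReuleaux.constant_dilate one_pos hL hc.isBounded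
  refine ⟨L '' E, ⟨hc.image L.continuous, hconn.image _ L.continuous.continuousOn,
    hnt.image L.injective⟩, ?_, ?_⟩
  · rw [e]; exact h1
  · rw [e]; exact h2

theorem half_le_TT : 1 / 2 ≤ rc Helper342.Reul.TT := by
  apply half_le Helper342.Reul.TT_compact
  by_contra h
  rw [Set.not_nontrivial_iff] at h
  have h1 := Metric.diam_subsingleton h
  rw [Helper342.RV.TT_diam] at h1
  exact one_ne_zero h1

theorem frontier_TT : (6671 / 10000 : ℝ) ≤ rc (frontier Helper342.Reul.TT) := by
  have h := Helper342.RV.lower_bound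
  rw [← Helper342.RV.TT_frontier] at h
  unfold rc
  rw [Helper342.RV.TT_frontier_diam, div_one]
  exact h

theorem solid_TT : rc Helper342.Reul.TT ≤ 1 / √3 := by
  unfold rc
  rw [Helper342.RV.TT_diam, div_one]
  exact Helper342.RV.solid_le

/-- **The rendezvous constants of continua.**

(1) For every `d ≥ 1` the rendezvous constants of the compact connected sets with more than one point of
`d`-dimensional Euclidean space have a largest element `R` (so `R = R_d`), they are exactly the numbers of
the interval `[1/2, R]`, and `R` is also the supremum of the rendezvous constants of connected finite unions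
of segments.

(2) The rendezvous number is Lipschitz continuous (constant `2`) for the Hausdorff distance on nonempty
compact sets, and for continua (with more than one point) `r(E) > c` is an open condition.

(3) In the plane all Reuleaux triangles have the same rendezvous constant `ρ`, and all their boundary curves
have the same rendezvous constant `ρ'`; with `m = max(ρ, ρ')` we have `1/2 ≤ ρ ≤ 1/√3`, `0.6671 ≤ ρ'` and
`m < R = R_2`. Hence every number of `(m, R]` is the rendezvous constant of a planar continuum; the planar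
continua with `r(E) > m` form an open set for the Hausdorff distance, and some of them are connected finite
unions of segments. -/
theorem result :
    (∀ d : ℕ, 1 ≤ d → ∃ R : ℝ, IsGreatest (values d) R ∧ values d = Icc (1 / 2) R ∧
      ∀ c < R, ∃ S : Finset (Space d × Space d),
        IsContinuum (segments S) ∧ c < rendezvousConstant (segments S)) ∧
    (∀ (d : ℕ) (E F : Set (Space d)), IsCompact E → E.Nonempty → IsCompact F → F.Nonempty →
      |rendezvous E - rendezvous F| ≤ 2 * hausdorffDist E F) ∧
    (∀ (d : ℕ) (E : Set (Space d)) (c : ℝ), IsContinuum E → c < rendezvousConstant E →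
      ∃ ε > 0, ∀ F : Set (Space d), IsContinuum F → hausdorffDist E F < ε → c < rendezvousConstant F) ∧
    ∃ ρ ρ' R : ℝ,
      (∀ (s : ℝ) (v : Fin 3 → Space 2), Equilateral s v →
        rendezvousConstant (reuleaux s v) = ρ ∧ rendezvousConstant (frontier (reuleaux s v)) = ρ') ∧
      1 / 2 ≤ ρ ∧ ρ ≤ 1 / √3 ∧ 6671 / 10000 ≤ ρ' ∧ max ρ ρ' < R ∧
      IsGreatest (values 2) R ∧
      (∀ r : ℝ, max ρ ρ' < r → r ≤ R → ∃ E : Set (Space 2), IsContinuum E ∧ rendezvousConstant E = r) ∧
      (∃ S : Finset (Space 2 × Space 2), IsContinuum (segments S) ∧ max ρ ρ' < rendezvousConstant (segments S)) ∧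
      ∀ E : Set (Space 2), IsContinuum E → max ρ ρ' < rendezvousConstant E →
        ∃ ε > 0, ∀ F : Set (Space 2), IsContinuum F → hausdorffDist E F < ε →
          max ρ ρ' < rendezvousConstant F := by
  have hopen : ∀ (d : ℕ) (E : Set (Space d)) (c : ℝ), IsContinuum E → c < rendezvousConstant E →
      ∃ ε > 0, ∀ F : Set (Space d), IsContinuum F → hausdorffDist E F < ε → c < rendezvousConstant F :=
    fun d E c hE h => open_near hE h
  refine ⟨fun d hd => spectrum hd, fun d E F h1 h2 h3 h4 => rdv_lip h1 h2 h3 h4, hopen, ?_⟩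
  obtain ⟨R, hR, hval, hpoly⟩ := spectrum (d := 2) (by norm_num)
  obtain ⟨E, hE, h1, h2⟩ := plane_cont
  have hER : rc E ≤ R := hR.2 ⟨E, hE, rfl⟩
  have hm : max (rc Helper342.Reul.TT) (rc (frontier Helper342.Reul.TT)) < R :=
    max_lt (h1.trans_le hER) (h2.trans_le hER)
  refine ⟨rc Helper342.Reul.TT, rc (frontier Helper342.Reul.TT), R, fun s v h => reuleaux_rc h,
    half_le_TT, solid_TT, frontier_TT, hm, hR, fun r hr hr' => ?_, hpoly _ hm,
    fun E hE h => hopen 2 E _ hE h⟩
  have : r ∈ values 2 := by
    rw [hval]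
    exact ⟨half_le_TT.trans ((le_max_left _ _).trans hr.le), hr'⟩
  exact this

end Pool.Agent.Results.MP_69e6d0_co.RendezvousSpectrum
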